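import Pool.Agent.R333.Om

/-!
# Large sets of integers with small multiplicative energy

There are sets `B_N ⊆ {1, …, N}` of density `(log N) ^ (-1/5)` whose multiplicative energy is
`≪ N |B_N| (log N) ^ 0.26`. The sets are made of integers with `2 ^ Ω(n) ≤ (log N) ^ (2/5)`.
-/

set_option autoImplicit false

namespace Pool.Agent.Results.MP_2883d2_nt.SmallEnergy

open Finset Pool.Agent.R333.Om

/-- the (mixed) multiplicative energy: the number of quadruples `(a, b, c, d)` with `a, c ∈ B`,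
`1 ≤ b, d ≤ N` and `a b = c d` -/
def energy (B : Finset ℕ) (N : ℕ) : ℕ :=
  ((B ×ˢ Icc 1 N ×ˢ B ×ˢ Icc 1 N).filter (fun x => x.1 * x.2.1 = x.2.2.1 * x.2.2.2)).card

lemma h_nonneg (n : ℕ) : 0 ≤ h n := f_nonneg (by norm_num) n

lemma h_sq (n : ℕ) : h n * h n = f (1 / 4) n := by
  unfold h f
  rw [← mul_pow]
  norm_num

lemma energy_mono {B B' : Finset ℕ} (hB : B ⊆ B') (N : ℕ) : energy B N ≤ energy B' N := by
  unfold energy
  refine card_le_card (filter_subset_filter _ ?_)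
  exact product_subset_product hB (product_subset_product le_rfl (product_subset_product hB le_rfl))

/-- the parametrization of the quadruples -/
lemma energy_le (B : Finset ℕ) (N : ℕ) (hB : B ⊆ Icc 1 N) (W : ℝ)
    (hW : ∀ a ∈ B, 1 ≤ W * h a) :
    (energy B N : ℝ) ≤ W ^ 2 * ∑ m ∈ Icc 1 N, ∑ n ∈ Icc 1 N, h m * h n *
      ((N / max m n : ℕ) * ∑ g ∈ Icc 1 (N / max m n), f (1 / 4) g) := by
  unfold energy
  set Q := (B ×ˢ Icc 1 N ×ˢ B ×ˢ Icc 1 N).filter (fun x => x.1 * x.2.1 = x.2.2.1 * x.2.2.2) with hQ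
  set R : Finset (Σ _ : ℕ × ℕ, ℕ × ℕ) := (Icc 1 N ×ˢ Icc 1 N).sigma
    (fun p => Icc 1 (N / max p.1 p.2) ×ˢ Icc 1 (N / max p.1 p.2)) with hR
  have h1 : (Q.card : ℝ) ≤ ∑ x ∈ Q, W ^ 2 * (h x.1 * h x.2.2.1) := by
    rw [card_eq_sum_ones]
    push_cast
    refine sum_le_sum fun x hx => ?_
    rw [hQ, mem_filter, mem_product, mem_product, mem_product] at hx
    have h2 := hW _ hx.1.1
    have h3 := hW _ hx.1.2.2.1
    nlinarith
  have h2 : ∑ x ∈ Q, W ^ 2 * (h x.1 * h x.2.2.1) ≤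
      ∑ y ∈ R, W ^ 2 * (h (y.2.1 * y.1.1) * h (y.2.1 * y.1.2)) := by
    refine sum_le_cover Q R (fun y => (y.2.1 * y.1.1, y.2.2 * y.1.2, y.2.1 * y.1.2, y.2.2 * y.1.1))
      (fun x => W ^ 2 * (h x.1 * h x.2.2.1)) ?_ ?_
    · intro y _
      exact mul_nonneg (by positivity) (mul_nonneg (h_nonneg _) (h_nonneg _))
    · rintro ⟨a, b, c, d⟩ hx
      rw [hQ, mem_filter, mem_product, mem_product, mem_product] at hx
      obtain ⟨⟨ha, hb, hc, hd⟩, habcd⟩ := hx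
      have ha' := mem_Icc.1 (hB ha)
      have hc' := mem_Icc.1 (hB hc)
      simp only [mem_Icc] at hb hd habcd ha' hc'
      obtain ⟨g, hg⟩ : ∃ g, g = Nat.gcd a c := ⟨_, rfl⟩
      have hg0 : 0 < g := by rw [hg]; exact Nat.gcd_pos_of_pos_left _ (by omega)
      obtain ⟨m, hm⟩ : g ∣ a := by rw [hg]; exact Nat.gcd_dvd_left _ _
      obtain ⟨n, hn⟩ : g ∣ c := by rw [hg]; exact Nat.gcd_dvd_right _ _
      have hcop : Nat.Coprime m n := by
        have h3 : g * Nat.gcd m n = g := by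
          rw [← Nat.gcd_mul_left, ← hm, ← hn, ← hg]
        exact Nat.eq_of_mul_eq_mul_left hg0 (by rw [h3, mul_one])
      have hmb : m * b = n * d := by
        apply Nat.eq_of_mul_eq_mul_left hg0
        calc g * (m * b) = a * b := by rw [hm]; ring
          _ = c * d := habcd
          _ = g * (n * d) := by rw [hn]; ring
      obtain ⟨t, ht⟩ : n ∣ b := hcop.symm.dvd_of_dvd_mul_left (Dvd.intro _ hmb.symm)
      have hm0 : 0 < m := Nat.pos_of_ne_zero (by rintro rfl; omega)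
      have hn0 : 0 < n := Nat.pos_of_ne_zero (by rintro rfl; omega)
      have hdt : d = t * m := by
        apply Nat.eq_of_mul_eq_mul_left hn0
        rw [← hmb, ht]; ring
      have ht0 : 0 < t := Nat.pos_of_ne_zero (by rintro rfl; omega)
      have hbt : b = t * n := by rw [ht]; ring
      refine ⟨⟨(m, n), (g, t)⟩, ?_, ?_⟩
      · rw [hR, mem_sigma, mem_product, mem_product, mem_Icc, mem_Icc, mem_Icc, mem_Icc]
        have hmax0 : 0 < max m n := lt_max_of_lt_left hm0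
        have h4 : m ≤ N := le_trans (by rw [hm]; exact Nat.le_mul_of_pos_left _ hg0) ha'.2
        have h5 : n ≤ N := le_trans (by rw [hn]; exact Nat.le_mul_of_pos_left _ hg0) hc'.2
        refine ⟨⟨⟨hm0, h4⟩, hn0, h5⟩, ⟨hg0, ?_⟩, ht0, ?_⟩
        · rw [Nat.le_div_iff_mul_le hmax0]
          rcases max_choice m n with h6 | h6 <;> rw [h6]
          · rw [← hm]; exact ha'.2
          · rw [← hn]; exact hc'.2
        · rw [Nat.le_div_iff_mul_le hmax0]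
          rcases max_choice m n with h6 | h6 <;> rw [h6]
          · rw [← hdt]; exact hd.2
          · rw [← hbt]; exact hb.2
      · simp only [Prod.mk.injEq]
        exact ⟨hm.symm, hbt.symm, hn.symm, hdt.symm⟩
  have h3 : ∑ y ∈ R, W ^ 2 * (h (y.2.1 * y.1.1) * h (y.2.1 * y.1.2)) =
      W ^ 2 * ∑ m ∈ Icc 1 N, ∑ n ∈ Icc 1 N, h m * h n *
      ((N / max m n : ℕ) * ∑ g ∈ Icc 1 (N / max m n), f (1 / 4) g) := by
    rw [← mul_sum, hR, sum_sigma, sum_product]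
    congr 1
    refine sum_congr rfl fun m hm => sum_congr rfl fun n hn => ?_
    rw [mem_Icc] at hm hn
    rw [sum_product]
    have h4 : ∀ g ∈ Icc 1 (N / max m n), ∑ t ∈ Icc 1 (N / max m n), h (g * m) * h (g * n) =
        h m * h n * ((N / max m n : ℕ) * f (1 / 4) g) := by
      intro g hg
      rw [mem_Icc] at hg
      rw [sum_const, Nat.card_Icc, Nat.add_sub_cancel, nsmul_eq_mul,
        show h (g * m) = h g * h m from f_mul _ (by omega) (by omega),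
        show h (g * n) = h g * h n from f_mul _ (by omega) (by omega), ← h_sq]
      ring
    rw [sum_congr rfl h4, ← mul_sum, ← mul_sum]
  rw [← h3]
  exact h1.trans h2

/-- symmetrization -/
lemma sym_sum (N : ℕ) (φ : ℕ → ℝ) (hφ : ∀ k, 0 ≤ φ k) :
    ∑ m ∈ Icc 1 N, ∑ n ∈ Icc 1 N, h m * h n * φ (max m n) ≤
      2 * ∑ m ∈ Icc 1 N, h m * φ m * ∑ n ∈ Icc 1 m, h n := by
  have h1 : ∀ m ∈ Icc 1 N, ∀ n ∈ Icc 1 N, h m * h n * φ (max m n) ≤
      (if n ≤ m then h m * φ m * h n else 0) + (if m ≤ n then h n * φ n * h m else 0) := by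
    intro m _ n _
    have e1 : 0 ≤ h m * φ m * h n := mul_nonneg (mul_nonneg (h_nonneg _) (hφ _)) (h_nonneg _)
    have e2 : 0 ≤ h n * φ n * h m := mul_nonneg (mul_nonneg (h_nonneg _) (hφ _)) (h_nonneg _)
    rcases le_total n m with h2 | h2
    · rw [max_eq_left h2, if_pos h2]
      split_ifs <;> nlinarith
    · rw [max_eq_right h2, if_pos h2]
      split_ifs <;> nlinarith
  have h2 : ∀ m ∈ Icc 1 N, ∑ n ∈ Icc 1 N, (if n ≤ m then h m * φ m * h n else 0) =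
      h m * φ m * ∑ n ∈ Icc 1 m, h n := by
    intro m hm
    rw [mem_Icc] at hm
    rw [← sum_filter, mul_sum]
    refine sum_congr ?_ fun _ _ => rfl
    ext n
    simp only [mem_filter, mem_Icc]
    omega
  calc ∑ m ∈ Icc 1 N, ∑ n ∈ Icc 1 N, h m * h n * φ (max m n)
      ≤ ∑ m ∈ Icc 1 N, ∑ n ∈ Icc 1 N,
        ((if n ≤ m then h m * φ m * h n else 0) + (if m ≤ n then h n * φ n * h m else 0)) :=
        sum_le_sum fun m hm => sum_le_sum fun n hn => h1 m hm n hn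
    _ = ∑ m ∈ Icc 1 N, ∑ n ∈ Icc 1 N, (if n ≤ m then h m * φ m * h n else 0) +
        ∑ m ∈ Icc 1 N, ∑ n ∈ Icc 1 N, (if m ≤ n then h n * φ n * h m else 0) := by
        simp only [sum_add_distrib]
    _ = ∑ m ∈ Icc 1 N, ∑ n ∈ Icc 1 N, (if n ≤ m then h m * φ m * h n else 0) +
        ∑ n ∈ Icc 1 N, ∑ m ∈ Icc 1 N, (if m ≤ n then h n * φ n * h m else 0) := by
        congr 1
        exact sum_comm
    _ = _ := by
        rw [sum_congr rfl h2]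
        ring

lemma split_ineq (a b : ℝ) (ha : 0 < a) (hb : 0 < b) :
    a⁻¹ * b ^ (-(3 / 4) : ℝ) ≤ ((a + b) / 2) ^ (-(3 / 4) : ℝ) * (a⁻¹ + b⁻¹) := by
  have hs : 0 < (a + b) / 2 := by positivity
  rcases le_total a b with hab | hab
  · have h1 : b ^ (-(3 / 4) : ℝ) ≤ ((a + b) / 2) ^ (-(3 / 4) : ℝ) :=
      Real.rpow_le_rpow_of_nonpos hs (by linarith) (by norm_num)
    have h2 : 0 ≤ ((a + b) / 2) ^ (-(3 / 4) : ℝ) * b⁻¹ := by positivity
    have h3 : a⁻¹ * b ^ (-(3 / 4) : ℝ) ≤ a⁻¹ * ((a + b) / 2) ^ (-(3 / 4) : ℝ) :=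
      mul_le_mul_of_nonneg_left h1 (by positivity)
    linarith
  · have h1 : a ^ (-(3 / 4) : ℝ) ≤ ((a + b) / 2) ^ (-(3 / 4) : ℝ) :=
      Real.rpow_le_rpow_of_nonpos hs (by linarith) (by norm_num)
    have h4 : a⁻¹ = a ^ (-(3 / 4) : ℝ) * a ^ (-(1 / 4) : ℝ) := by
      rw [← Real.rpow_add ha, ← Real.rpow_neg_one]; norm_num
    have h5 : b⁻¹ = b ^ (-(3 / 4) : ℝ) * b ^ (-(1 / 4) : ℝ) := by
      rw [← Real.rpow_add hb, ← Real.rpow_neg_one]; norm_num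
    have h6 : a ^ (-(1 / 4) : ℝ) ≤ b ^ (-(1 / 4) : ℝ) :=
      Real.rpow_le_rpow_of_nonpos hb hab (by norm_num)
    have h7 : a⁻¹ * b ^ (-(3 / 4) : ℝ) ≤ ((a + b) / 2) ^ (-(3 / 4) : ℝ) * b⁻¹ := by
      rw [h4, h5]
      calc a ^ (-(3 / 4) : ℝ) * a ^ (-(1 / 4) : ℝ) * b ^ (-(3 / 4) : ℝ)
          = a ^ (-(3 / 4) : ℝ) * (b ^ (-(3 / 4) : ℝ) * a ^ (-(1 / 4) : ℝ)) := by ring
        _ ≤ ((a + b) / 2) ^ (-(3 / 4) : ℝ) * (b ^ (-(3 / 4) : ℝ) * b ^ (-(1 / 4) : ℝ)) := by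
            refine mul_le_mul h1 ?_ (by positivity) (by positivity)
            exact mul_le_mul_of_nonneg_left h6 (by positivity)
    have h2 : 0 ≤ ((a + b) / 2) ^ (-(3 / 4) : ℝ) * a⁻¹ := by positivity
    linarith

lemma harm_le (J : ℕ) : ∑ j ∈ range (J + 1), (((j : ℝ) + 1) / 2)⁻¹ ≤ 2 * (1 + Real.log (J + 1)) := by
  have h1 := harmonic_le_one_add_log (J + 1)
  have h2 : ((harmonic (J + 1) : ℚ) : ℝ) = ∑ j ∈ range (J + 1), ((j : ℝ) + 1)⁻¹ := by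
    unfold harmonic
    push_cast
    rfl
  rw [h2] at h1
  have h3 : ∑ j ∈ range (J + 1), (((j : ℝ) + 1) / 2)⁻¹ = 2 * ∑ j ∈ range (J + 1), ((j : ℝ) + 1)⁻¹ := by
    rw [mul_sum]
    refine sum_congr rfl fun j _ => ?_
    rw [inv_div, div_eq_mul_inv]
  rw [h3]
  push_cast at h1
  linarith

lemma dyadic_sum (J : ℕ) :
    ∑ j ∈ range (J + 1), (((j : ℝ) + 1) / 2)⁻¹ * ((((J - j : ℕ) : ℝ) + 1) / 2) ^ (-(3 / 4) : ℝ) ≤
      (((J : ℝ) + 2) / 4) ^ (-(3 / 4) : ℝ) * (4 * (1 + Real.log (J + 1))) := by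
  have h1 : ∀ j ∈ range (J + 1),
      (((j : ℝ) + 1) / 2)⁻¹ * ((((J - j : ℕ) : ℝ) + 1) / 2) ^ (-(3 / 4) : ℝ) ≤
      (((J : ℝ) + 2) / 4) ^ (-(3 / 4) : ℝ) * ((((j : ℝ) + 1) / 2)⁻¹ +
        ((((J - j : ℕ) : ℝ) + 1) / 2)⁻¹) := by
    intro j hj
    rw [mem_range] at hj
    have h2 := split_ineq (((j : ℝ) + 1) / 2) ((((J - j : ℕ) : ℝ) + 1) / 2) (by positivity)
      (by positivity)
    have h3 : (((j : ℝ) + 1) / 2 + (((J - j : ℕ) : ℝ) + 1) / 2) / 2 = ((J : ℝ) + 2) / 4 := by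
      rw [Nat.cast_sub (by omega)]
      ring
    rwa [h3] at h2
  refine (sum_le_sum h1).trans ?_
  rw [← mul_sum, sum_add_distrib]
  have h4 : ∑ j ∈ range (J + 1), ((((J - j : ℕ) : ℝ) + 1) / 2)⁻¹ =
      ∑ j ∈ range (J + 1), (((j : ℝ) + 1) / 2)⁻¹ := by
    rw [← sum_range_reflect]
    refine sum_congr rfl fun j hj => ?_
    rw [mem_range] at hj
    congr 4
    omega
  rw [h4]
  have h5 := harm_le J
  apply mul_le_mul_of_nonneg_left _ (by positivity)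
  linarith

/-- the main sum -/
lemma main_sum : ∃ C : ℝ, 0 < C ∧ ∀ N : ℕ, 1 ≤ N →
    ∑ m ∈ Icc 1 N, h m / m * (ell m ^ (-(1 / 2) : ℝ) * ell (N / m) ^ (-(3 / 4) : ℝ)) ≤
      C * ((((Nat.log 2 N : ℕ) : ℝ) + 2) / 4) ^ (-(3 / 4) : ℝ) *
        (1 + Real.log ((Nat.log 2 N : ℕ) + 1)) := by
  obtain ⟨C, hC0, hC⟩ := mean (w := 1 / 2) (by norm_num) (by norm_num)
  have hl2 := Real.log_two_gt_d9
  refine ⟨8 * C, by positivity, fun N hN => ?_⟩
  set J := Nat.log 2 N with hJ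
  have hell : ∀ j : ℕ, ((j : ℝ) + 1) / 2 ≤ ell (2 ^ j) := by
    intro j
    unfold ell
    push_cast
    rw [Real.log_pow]
    nlinarith [(Nat.cast_nonneg j : (0 : ℝ) ≤ j)]
  have hNJ : 2 ^ J ≤ N := Nat.pow_log_le_self 2 (by omega)
  have hmaps : ∀ m ∈ Icc 1 N, Nat.log 2 m ∈ range (J + 1) := by
    intro m hm
    rw [mem_Icc] at hm
    rw [mem_range, Nat.lt_succ_iff]
    exact Nat.log_mono_right hm.2
  rw [← sum_fiberwise_of_maps_to hmaps]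
  have hblock : ∀ j ∈ range (J + 1), ∑ m ∈ (Icc 1 N).filter (fun m => Nat.log 2 m = j),
      h m / m * (ell m ^ (-(1 / 2) : ℝ) * ell (N / m) ^ (-(3 / 4) : ℝ)) ≤
      (2 * C) * ((((j : ℝ) + 1) / 2)⁻¹ * ((((J - j : ℕ) : ℝ) + 1) / 2) ^ (-(3 / 4) : ℝ)) := by
    intro j hj
    rw [mem_range] at hj
    have h1 : ∀ m ∈ (Icc 1 N).filter (fun m => Nat.log 2 m = j),
        h m / m * (ell m ^ (-(1 / 2) : ℝ) * ell (N / m) ^ (-(3 / 4) : ℝ)) ≤
        h m * ((2 ^ j : ℝ)⁻¹ * ((((j : ℝ) + 1) / 2) ^ (-(1 / 2) : ℝ) *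
          ((((J - j : ℕ) : ℝ) + 1) / 2) ^ (-(3 / 4) : ℝ))) := by
      intro m hm
      rw [mem_filter, mem_Icc] at hm
      obtain ⟨⟨hm1, hm2⟩, hm3⟩ := hm
      have hm4 : 2 ^ j ≤ m := by rw [← hm3]; exact Nat.pow_log_le_self 2 (by omega)
      have hm5 : m < 2 ^ (j + 1) := by rw [← hm3]; exact Nat.lt_pow_succ_log_self (by norm_num) m
      have e1 : ((j : ℝ) + 1) / 2 ≤ ell m := (hell j).trans (ell_mono (Nat.one_le_two_pow) hm4)
      have e2 : (((J - j : ℕ) : ℝ) + 1) / 2 ≤ ell (N / m) := by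
        rcases Nat.eq_zero_or_pos (J - j) with h0 | h0
        · rw [h0]
          have := ell_ge (N / m)
          push_cast
          linarith
        · have h2 : 2 ^ (J - j - 1) ≤ N / m := by
            rw [Nat.le_div_iff_mul_le (by omega)]
            calc 2 ^ (J - j - 1) * m ≤ 2 ^ (J - j - 1) * 2 ^ (j + 1) :=
                  Nat.mul_le_mul_left _ hm5.le
              _ = 2 ^ J := by rw [← pow_add]; congr 1; omega
              _ ≤ N := hNJ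
          refine le_trans ?_ (ell_mono Nat.one_le_two_pow h2)
          unfold ell
          push_cast
          rw [Real.log_pow, Nat.cast_sub (by omega : 1 ≤ J - j)]
          have h3 : (1 : ℝ) ≤ ((J - j : ℕ) : ℝ) := by exact_mod_cast h0
          push_cast
          nlinarith
      have e3 : ell m ^ (-(1 / 2) : ℝ) ≤ (((j : ℝ) + 1) / 2) ^ (-(1 / 2) : ℝ) :=
        Real.rpow_le_rpow_of_nonpos (by positivity) e1 (by norm_num)
      have e4 : ell (N / m) ^ (-(3 / 4) : ℝ) ≤ ((((J - j : ℕ) : ℝ) + 1) / 2) ^ (-(3 / 4) : ℝ) :=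
        Real.rpow_le_rpow_of_nonpos (by positivity) e2 (by norm_num)
      have e5 : (m : ℝ)⁻¹ ≤ (2 ^ j : ℝ)⁻¹ := by
        apply inv_anti₀ (by positivity)
        exact_mod_cast hm4
      have e6 : 0 ≤ ell m ^ (-(1 / 2) : ℝ) := Real.rpow_nonneg (by linarith [ell_ge m]) _
      have e7 : 0 ≤ ell (N / m) ^ (-(3 / 4) : ℝ) := Real.rpow_nonneg (by linarith [ell_ge (N / m)]) _
      rw [div_eq_mul_inv, mul_assoc]
      refine mul_le_mul_of_nonneg_left ?_ (h_nonneg m)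
      refine mul_le_mul e5 (mul_le_mul e3 e4 e7 (by positivity)) (mul_nonneg e6 e7) (by positivity)
    refine (sum_le_sum h1).trans ?_
    rw [← sum_mul]
    have h2 : ∑ m ∈ (Icc 1 N).filter (fun m => Nat.log 2 m = j), h m ≤
        C * ((2 ^ (j + 1) : ℕ) : ℝ) * (((j : ℝ) + 1) / 2) ^ (-(1 / 2) : ℝ) := by
      have h3 : ∑ m ∈ (Icc 1 N).filter (fun m => Nat.log 2 m = j), h m ≤
          ∑ m ∈ Icc 1 (2 ^ (j + 1)), h m := by
        refine sum_le_sum_of_subset_of_nonneg ?_ fun m _ _ => h_nonneg m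
        intro m hm
        rw [mem_filter, mem_Icc] at hm
        rw [mem_Icc]
        refine ⟨hm.1.1, ?_⟩
        rw [← hm.2]
        exact (Nat.lt_pow_succ_log_self (by norm_num) m).le
      refine h3.trans ((hC _ Nat.one_le_two_pow).trans ?_)
      apply mul_le_mul_of_nonneg_left _ (by positivity)
      rw [show (1 / 2 - 1 : ℝ) = -(1 / 2) by norm_num]
      refine Real.rpow_le_rpow_of_nonpos (by positivity) ?_ (by norm_num)
      refine le_trans ?_ (hell (j + 1))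
      push_cast
      linarith
    refine (mul_le_mul_of_nonneg_right h2 (by positivity)).trans (le_of_eq ?_)
    have h4 : (((j : ℝ) + 1) / 2) ^ (-(1 / 2) : ℝ) * (((j : ℝ) + 1) / 2) ^ (-(1 / 2) : ℝ) =
        (((j : ℝ) + 1) / 2)⁻¹ := by
      rw [← Real.rpow_add (by positivity), ← Real.rpow_neg_one]; norm_num
    rw [← h4]
    push_cast
    rw [pow_succ]
    field_simp
  refine (sum_le_sum hblock).trans ?_
  rw [← mul_sum]
  refine (mul_le_mul_of_nonneg_left (dyadic_sum J) (by positivity)).trans (le_of_eq ?_)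
  ring

/-- the energy of a set of integers with `1 ≤ W h(a)` -/
theorem energy_bound : ∃ C : ℝ, 0 < C ∧ ∀ (N : ℕ), 1 ≤ N → ∀ (B : Finset ℕ), B ⊆ Icc 1 N →
    ∀ W : ℝ, (∀ a ∈ B, 1 ≤ W * h a) → (energy B N : ℝ) ≤ C * W ^ 2 * (N : ℝ) ^ 2 *
      (((((Nat.log 2 N : ℕ) : ℝ) + 2) / 4) ^ (-(3 / 4) : ℝ) *
        (1 + Real.log ((Nat.log 2 N : ℕ) + 1))) := by
  obtain ⟨C1, hC1, hm1⟩ := main_sum
  obtain ⟨C2, hC2, hm2⟩ := mean (w := 1 / 2) (by norm_num) (by norm_num)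
  obtain ⟨C4, hC4, hm4⟩ := mean (w := 1 / 4) (by norm_num) (by norm_num)
  refine ⟨2 * C2 * C4 * C1, by positivity, fun N hN B hB W hW => ?_⟩
  refine (energy_le B N hB W hW).trans ?_
  -- the inner sums
  set φ : ℕ → ℝ := fun k => ((N / k : ℕ) : ℝ) * ∑ g ∈ Icc 1 (N / k), f (1 / 4) g with hφ
  have hφ0 : ∀ k, 0 ≤ φ k := fun k =>
    mul_nonneg (Nat.cast_nonneg _) (sum_nonneg fun g _ => f_nonneg (by norm_num) g)
  have h1 := sym_sum N φ hφ0
  have h2 : ∀ m ∈ Icc 1 N, h m * φ m * ∑ n ∈ Icc 1 m, h n ≤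
      (C2 * C4 * (N : ℝ) ^ 2) *
        (h m / m * (ell m ^ (-(1 / 2) : ℝ) * ell (N / m) ^ (-(3 / 4) : ℝ))) := by
    intro m hm
    rw [mem_Icc] at hm
    have hm0 : (0 : ℝ) < m := by exact_mod_cast hm.1
    have hK : 1 ≤ N / m := by rw [Nat.le_div_iff_mul_le (by omega)]; omega
    have e1 := hm2 m hm.1
    have e2 := hm4 (N / m) hK
    rw [show (1 / 2 - 1 : ℝ) = -(1 / 2) by norm_num] at e1
    rw [show (1 / 4 - 1 : ℝ) = -(3 / 4) by norm_num] at e2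
    have e3 : ((N / m : ℕ) : ℝ) ≤ N / m := Nat.cast_div_le
    have hp1 : 0 ≤ ell m ^ (-(1 / 2) : ℝ) := Real.rpow_nonneg (by linarith [ell_ge m]) _
    have hp2 : 0 ≤ ell (N / m) ^ (-(3 / 4) : ℝ) := Real.rpow_nonneg (by linarith [ell_ge (N / m)]) _
    have e4 : φ m ≤ C4 * ((N : ℝ) / m) ^ 2 * ell (N / m) ^ (-(3 / 4) : ℝ) := by
      calc φ m ≤ ((N / m : ℕ) : ℝ) * (C4 * ((N / m : ℕ) : ℝ) * ell (N / m) ^ (-(3 / 4) : ℝ)) :=
            mul_le_mul_of_nonneg_left e2 (Nat.cast_nonneg _)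
        _ = C4 * ((N / m : ℕ) : ℝ) ^ 2 * ell (N / m) ^ (-(3 / 4) : ℝ) := by ring
        _ ≤ _ := by
            refine mul_le_mul_of_nonneg_right ?_ hp2
            refine mul_le_mul_of_nonneg_left ?_ hC4.le
            exact pow_le_pow_left₀ (Nat.cast_nonneg _) e3 2
    calc h m * φ m * ∑ n ∈ Icc 1 m, h n
        ≤ h m * (C4 * ((N : ℝ) / m) ^ 2 * ell (N / m) ^ (-(3 / 4) : ℝ)) *
          (C2 * m * ell m ^ (-(1 / 2) : ℝ)) := by
          refine mul_le_mul (mul_le_mul_of_nonneg_left e4 (h_nonneg m)) e1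
            (sum_nonneg fun n _ => h_nonneg n) ?_
          exact mul_nonneg (h_nonneg m) (by positivity)
      _ = _ := by
          field_simp
  have h3 : ∑ m ∈ Icc 1 N, ∑ n ∈ Icc 1 N, h m * h n *
      ((N / max m n : ℕ) * ∑ g ∈ Icc 1 (N / max m n), f (1 / 4) g) ≤
      2 * ((C2 * C4 * (N : ℝ) ^ 2) * (C1 * ((((Nat.log 2 N : ℕ) : ℝ) + 2) / 4) ^ (-(3 / 4) : ℝ) *
        (1 + Real.log ((Nat.log 2 N : ℕ) + 1)))) := by
    refine h1.trans (mul_le_mul_of_nonneg_left ?_ (by norm_num))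
    refine (sum_le_sum h2).trans ?_
    rw [← mul_sum]
    exact mul_le_mul_of_nonneg_left (hm1 N hN) (by positivity)
  refine (mul_le_mul_of_nonneg_left h3 (by positivity)).trans (le_of_eq ?_)
  ring

/-- the energy bound in terms of `log N` -/
theorem energy_bound' : ∃ C : ℝ, 0 < C ∧ ∀ (N : ℕ), 3 ≤ N → ∀ (B : Finset ℕ), B ⊆ Icc 1 N →
    (∀ a ∈ B, 1 ≤ Real.log N ^ (2 / 5 : ℝ) * h a) →
    (energy B N : ℝ) ≤ C * (N : ℝ) ^ 2 * Real.log N ^ (3 / 50 : ℝ) := by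
  obtain ⟨C, hC, hb⟩ := energy_bound
  refine ⟨412 * C, by positivity, fun N hN B hB hW => ?_⟩
  set L := Real.log N with hL
  have hN0 : (0 : ℝ) < N := by exact_mod_cast (by omega : 0 < N)
  have hL1 : 1 ≤ L := by
    rw [hL, Real.le_log_iff_exp_le hN0]
    have : (3 : ℝ) ≤ N := by exact_mod_cast hN
    linarith [Real.exp_one_lt_d9]
  have hl2 := Real.log_two_gt_d9
  have hl2' := Real.log_two_lt_d9
  refine (hb N (by omega) B hB _ hW).trans ?_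
  set J := Nat.log 2 N with hJ
  have h1 : L ≤ J + 2 := by
    have h2 : (N : ℝ) < 2 ^ (J + 1) := by exact_mod_cast Nat.lt_pow_succ_log_self (by norm_num) N
    have h3 : L ≤ Real.log ((2 : ℝ) ^ (J + 1)) := Real.log_le_log hN0 h2.le
    rw [Real.log_pow] at h3
    push_cast at h3
    nlinarith [(Nat.cast_nonneg J : (0 : ℝ) ≤ J)]
  have h2 : (J : ℝ) ≤ 2 * L := by
    have h3 : (2 : ℝ) ^ J ≤ N := by exact_mod_cast Nat.pow_log_le_self 2 (by omega)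
    have h4 : Real.log ((2 : ℝ) ^ J) ≤ L := Real.log_le_log (by positivity) h3
    rw [Real.log_pow] at h4
    nlinarith [(Nat.cast_nonneg J : (0 : ℝ) ≤ J)]
  have h3 : (((J : ℝ) + 2) / 4) ^ (-(3 / 4) : ℝ) ≤ 4 * L ^ (-(3 / 4) : ℝ) := by
    have h4 : (((J : ℝ) + 2) / 4) ^ (-(3 / 4) : ℝ) ≤ (L / 4) ^ (-(3 / 4) : ℝ) :=
      Real.rpow_le_rpow_of_nonpos (by positivity) (by linarith) (by norm_num)
    refine h4.trans ?_
    rw [Real.div_rpow (by linarith) (by norm_num), div_eq_mul_inv, ← Real.rpow_neg (by norm_num),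
      neg_neg, mul_comm]
    apply mul_le_mul_of_nonneg_right _ (by positivity)
    calc (4 : ℝ) ^ (3 / 4 : ℝ) ≤ 4 ^ (1 : ℝ) :=
          Real.rpow_le_rpow_of_exponent_le (by norm_num) (by norm_num)
      _ = 4 := Real.rpow_one 4
  have h4 : 1 + Real.log ((J : ℝ) + 1) ≤ 103 * L ^ (1 / 100 : ℝ) := by
    have h5 : (J : ℝ) + 1 ≤ 3 * L := by linarith
    have h6 : Real.log ((J : ℝ) + 1) ≤ Real.log (3 * L) := Real.log_le_log (by positivity) h5
    rw [Real.log_mul (by norm_num) (by positivity)] at h6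
    have h7 : Real.log L ≤ L ^ (1 / 100 : ℝ) / (1 / 100) :=
      Real.log_le_rpow_div (by linarith) (by norm_num)
    have h8 : Real.log 3 ≤ 2 := by
      have := Real.log_le_sub_one_of_pos (by norm_num : (0 : ℝ) < 3)
      linarith
    have h9 : 1 ≤ L ^ (1 / 100 : ℝ) := Real.one_le_rpow hL1 (by norm_num)
    have h10 : L ^ (1 / 100 : ℝ) / (1 / 100) = 100 * L ^ (1 / 100 : ℝ) := by ring
    linarith
  have h5 : 0 ≤ 1 + Real.log ((J : ℝ) + 1) := by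
    have : 0 ≤ Real.log ((J : ℝ) + 1) := Real.log_nonneg (by
      have := (Nat.cast_nonneg J : (0 : ℝ) ≤ J)
      linarith)
    linarith
  have h6 : (L ^ (2 / 5 : ℝ)) ^ 2 * (L ^ (-(3 / 4) : ℝ) * L ^ (1 / 100 : ℝ)) = L ^ (3 / 50 : ℝ) := by
    have hL0 : 0 < L := by linarith
    rw [← Real.rpow_natCast, ← Real.rpow_mul hL0.le, ← Real.rpow_add hL0, ← Real.rpow_add hL0]
    norm_num
  calc C * (L ^ (2 / 5 : ℝ)) ^ 2 * (N : ℝ) ^ 2 *
        ((((J : ℝ) + 2) / 4) ^ (-(3 / 4) : ℝ) * (1 + Real.log ((J : ℝ) + 1)))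
      ≤ C * (L ^ (2 / 5 : ℝ)) ^ 2 * (N : ℝ) ^ 2 *
        ((4 * L ^ (-(3 / 4) : ℝ)) * (103 * L ^ (1 / 100 : ℝ))) := by
        refine mul_le_mul_of_nonneg_left ?_ (by positivity)
        exact mul_le_mul h3 h4 h5 (by positivity)
    _ = 412 * C * (N : ℝ) ^ 2 *
        ((L ^ (2 / 5 : ℝ)) ^ 2 * (L ^ (-(3 / 4) : ℝ) * L ^ (1 / 100 : ℝ))) := by ring
    _ = _ := by rw [h6]

/-! ### The number of elements -/

lemma h_pow (s : ℝ) (n : ℕ) : f ((1 / 2 : ℝ) ^ s) n = h n ^ s := by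
  unfold h f
  rw [← Real.rpow_natCast, ← Real.rpow_natCast, ← Real.rpow_mul (by norm_num),
    ← Real.rpow_mul (by norm_num), mul_comm]

/-- the large set -/
noncomputable def B0 (N : ℕ) : Finset ℕ :=
  (Icc 1 N).filter (fun n => 1 ≤ Real.log N ^ (2 / 5 : ℝ) * h n)

lemma point (L x : ℝ) (hL : 1 ≤ L) (hx : 0 < x) :
    L ^ (3 / 10 : ℝ) * x ≤ (if 1 ≤ L ^ (2 / 5 : ℝ) * x then 1 else 0) +
      L ^ (3 / 10 : ℝ) * (L ^ (-(1 / 10) : ℝ) * x ^ (3 / 4 : ℝ)) +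
      L ^ (3 / 10 : ℝ) * (L ^ (3 / 40 : ℝ) * x ^ (5 / 4 : ℝ)) := by
  have hL0 : 0 < L := by linarith
  have e1 : 0 ≤ L ^ (3 / 10 : ℝ) * (L ^ (-(1 / 10) : ℝ) * x ^ (3 / 4 : ℝ)) := by positivity
  have e2 : 0 ≤ L ^ (3 / 10 : ℝ) * (L ^ (3 / 40 : ℝ) * x ^ (5 / 4 : ℝ)) := by positivity
  split_ifs with h1
  · rcases le_total (L ^ (3 / 10 : ℝ) * x) 1 with h2 | h2
    · linarith
    · have h3 : x ≤ L ^ (3 / 40 : ℝ) * x ^ (5 / 4 : ℝ) := by
        have h4 : (1 : ℝ) ≤ (L ^ (3 / 10 : ℝ) * x) ^ (1 / 4 : ℝ) := Real.one_le_rpow h2 (by norm_num)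
        rw [Real.mul_rpow (by positivity) hx.le, ← Real.rpow_mul hL0.le] at h4
        have h5 : x ^ (5 / 4 : ℝ) = x * x ^ (1 / 4 : ℝ) := by
          conv_rhs => rw [← Real.rpow_one x, ← Real.rpow_mul hx.le]
          rw [← Real.rpow_add hx]
          norm_num
        rw [h5]
        have h6 : L ^ (3 / 40 : ℝ) * (x * x ^ (1 / 4 : ℝ)) =
            x * (L ^ (3 / 10 * (1 / 4) : ℝ) * x ^ (1 / 4 : ℝ)) := by
          rw [show (3 / 10 * (1 / 4) : ℝ) = 3 / 40 by norm_num]; ring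
        rw [h6]
        exact le_mul_of_one_le_right hx.le h4
      have h4 := mul_le_mul_of_nonneg_left h3 (by positivity : (0 : ℝ) ≤ L ^ (3 / 10 : ℝ))
      linarith
  · push Not at h1
    have h3 : x ≤ L ^ (-(1 / 10) : ℝ) * x ^ (3 / 4 : ℝ) := by
      have h4 : (L ^ (2 / 5 : ℝ) * x) ^ (1 / 4 : ℝ) ≤ 1 := Real.rpow_le_one (by positivity) h1.le
        (by norm_num)
      rw [Real.mul_rpow (by positivity) hx.le, ← Real.rpow_mul hL0.le] at h4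
      have h5 : x = x ^ (3 / 4 : ℝ) * x ^ (1 / 4 : ℝ) := by
        rw [← Real.rpow_add hx]
        norm_num
      have h6 : L ^ (-(1 / 10) : ℝ) * L ^ (2 / 5 * (1 / 4) : ℝ) = 1 := by
        rw [← Real.rpow_add hL0]
        norm_num
      calc x = x ^ (3 / 4 : ℝ) * x ^ (1 / 4 : ℝ) := h5
        _ = (L ^ (-(1 / 10) : ℝ) * x ^ (3 / 4 : ℝ)) * (L ^ (2 / 5 * (1 / 4) : ℝ) * x ^ (1 / 4 : ℝ)) := by
            rw [show (L ^ (-(1 / 10) : ℝ) * x ^ (3 / 4 : ℝ)) *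
              (L ^ (2 / 5 * (1 / 4) : ℝ) * x ^ (1 / 4 : ℝ)) =
              (L ^ (-(1 / 10) : ℝ) * L ^ (2 / 5 * (1 / 4) : ℝ)) * (x ^ (3 / 4 : ℝ) * x ^ (1 / 4 : ℝ)) by
              ring, h6, one_mul]
        _ ≤ (L ^ (-(1 / 10) : ℝ) * x ^ (3 / 4 : ℝ)) * 1 :=
            mul_le_mul_of_nonneg_left h4 (by positivity)
        _ = _ := mul_one _
    have h4 := mul_le_mul_of_nonneg_left h3 (by positivity : (0 : ℝ) ≤ L ^ (3 / 10 : ℝ))
    linarith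

lemma z1_le : (1 / 2 : ℝ) ^ (3 / 4 : ℝ) ≤ 0.595 := by
  have h1 : ((1 / 2 : ℝ) ^ (3 / 4 : ℝ)) ^ 4 = 1 / 8 := by
    rw [← Real.rpow_natCast, ← Real.rpow_mul (by norm_num)]
    norm_num
  by_contra h
  push Not at h
  have h2 : (0.595 : ℝ) ^ 4 < ((1 / 2 : ℝ) ^ (3 / 4 : ℝ)) ^ 4 := by
    apply pow_lt_pow_left₀ h (by norm_num) (by norm_num)
  rw [h1] at h2
  norm_num at h2

lemma z2_le : (1 / 2 : ℝ) ^ (5 / 4 : ℝ) ≤ 0.421 := by
  have h1 : ((1 / 2 : ℝ) ^ (5 / 4 : ℝ)) ^ 4 = 1 / 32 := by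
    rw [← Real.rpow_natCast, ← Real.rpow_mul (by norm_num)]
    norm_num
  by_contra h
  push Not at h
  have h2 : (0.421 : ℝ) ^ 4 < ((1 / 2 : ℝ) ^ (5 / 4 : ℝ)) ^ 4 := by
    apply pow_lt_pow_left₀ h (by norm_num) (by norm_num)
  rw [h1] at h2
  norm_num at h2

/-- the large set is large -/
theorem card_B0 : ∃ c : ℝ, 0 < c ∧ ∀ᶠ N : ℕ in Filter.atTop,
    c * N * Real.log N ^ (-(1 / 5) : ℝ) ≤ ((B0 N).card : ℝ) := by
  obtain ⟨c, hc, hlow⟩ := mean_low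
  set z1 : ℝ := (1 / 2 : ℝ) ^ (3 / 4 : ℝ) with hz1
  set z2 : ℝ := (1 / 2 : ℝ) ^ (5 / 4 : ℝ) with hz2
  have hz10 : 0 < z1 := by positivity
  have hz20 : 0 < z2 := by positivity
  have hz1l := z1_le
  have hz2l := z2_le
  obtain ⟨C1, hC1, h1⟩ := mean hz10 (by linarith)
  obtain ⟨C2, hC2, h2⟩ := mean hz20 (by linarith)
  refine ⟨c / 4, by positivity, ?_⟩
  have hlim : Filter.Tendsto (fun N : ℕ => (C1 + C2) * Real.log N ^ (-(1 / 250) : ℝ)) Filter.atTop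
      (nhds 0) := by
    have h3 : Filter.Tendsto (fun N : ℕ => Real.log (N : ℝ)) Filter.atTop Filter.atTop :=
      Real.tendsto_log_atTop.comp tendsto_natCast_atTop_atTop
    have h4 := ((tendsto_rpow_neg_atTop (by norm_num : (0 : ℝ) < 1 / 250)).comp h3).const_mul (C1 + C2)
    rw [mul_zero] at h4
    exact h4
  filter_upwards [hlim.eventually (gt_mem_nhds (by positivity : (0 : ℝ) < c / 4)),
    Filter.eventually_ge_atTop 3] with N hN1 hN3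
  set L := Real.log N with hL
  have hN0 : (0 : ℝ) < N := by exact_mod_cast (by omega : 0 < N)
  have hL1 : 1 ≤ L := by
    rw [hL, Real.le_log_iff_exp_le hN0]
    have : (3 : ℝ) ≤ N := by exact_mod_cast hN3
    linarith [Real.exp_one_lt_d9]
  have hL0 : 0 < L := by linarith
  have hell : ell N = 1 + L := rfl
  -- the sums
  have s0 : c / 2 * N * L ^ (-(1 / 2) : ℝ) ≤ ∑ n ∈ Icc 1 N, h n := by
    refine le_trans ?_ (hlow N (by omega))
    rw [hell]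
    have h3 : L ^ (-(1 / 2) : ℝ) / 2 ≤ (1 + L) ^ (-(1 / 2) : ℝ) := by
      have h4 : (2 * L) ^ (-(1 / 2) : ℝ) ≤ (1 + L) ^ (-(1 / 2) : ℝ) :=
        Real.rpow_le_rpow_of_nonpos (by linarith) (by linarith) (by norm_num)
      refine le_trans ?_ h4
      rw [Real.mul_rpow (by norm_num) hL0.le]
      have h5 : (1 / 2 : ℝ) ≤ 2 ^ (-(1 / 2) : ℝ) := by
        have h6 : (2 : ℝ) ^ (-1 : ℝ) ≤ 2 ^ (-(1 / 2) : ℝ) :=
          Real.rpow_le_rpow_of_exponent_le (by norm_num) (by norm_num)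
        rw [Real.rpow_neg_one] at h6
        linarith
      have h7 : 0 ≤ L ^ (-(1 / 2) : ℝ) := by positivity
      nlinarith
    calc c / 2 * N * L ^ (-(1 / 2) : ℝ) = c * N * (L ^ (-(1 / 2) : ℝ) / 2) := by ring
      _ ≤ _ := mul_le_mul_of_nonneg_left h3 (by positivity)
  have s1 : ∑ n ∈ Icc 1 N, f z1 n ≤ C1 * N * L ^ (-(81 / 200) : ℝ) := by
    refine (h1 N (by omega)).trans (mul_le_mul_of_nonneg_left ?_ (by positivity))
    rw [hell]
    calc (1 + L) ^ (z1 - 1) ≤ L ^ (z1 - 1) :=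
          Real.rpow_le_rpow_of_nonpos hL0 (by linarith) (by linarith)
      _ ≤ L ^ (-(81 / 200) : ℝ) := Real.rpow_le_rpow_of_exponent_le hL1 (by linarith)
  have s2 : ∑ n ∈ Icc 1 N, f z2 n ≤ C2 * N * L ^ (-(579 / 1000) : ℝ) := by
    refine (h2 N (by omega)).trans (mul_le_mul_of_nonneg_left ?_ (by positivity))
    rw [hell]
    calc (1 + L) ^ (z2 - 1) ≤ L ^ (z2 - 1) :=
          Real.rpow_le_rpow_of_nonpos hL0 (by linarith) (by linarith)
      _ ≤ L ^ (-(579 / 1000) : ℝ) := Real.rpow_le_rpow_of_exponent_le hL1 (by linarith)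
  -- summing the pointwise inequality
  have hsum : L ^ (3 / 10 : ℝ) * ∑ n ∈ Icc 1 N, h n ≤ ((B0 N).card : ℝ) +
      L ^ (3 / 10 : ℝ) * (L ^ (-(1 / 10) : ℝ) * ∑ n ∈ Icc 1 N, f z1 n) +
      L ^ (3 / 10 : ℝ) * (L ^ (3 / 40 : ℝ) * ∑ n ∈ Icc 1 N, f z2 n) := by
    have h3 : ((B0 N).card : ℝ) = ∑ n ∈ Icc 1 N, (if 1 ≤ L ^ (2 / 5 : ℝ) * h n then (1 : ℝ) else 0) := by
      rw [← sum_filter, sum_const, nsmul_eq_mul, mul_one]
      rfl
    rw [h3, mul_sum, mul_sum, mul_sum, mul_sum, mul_sum, ← sum_add_distrib, ← sum_add_distrib]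
    refine sum_le_sum fun n _ => ?_
    have h4 := point L (h n) hL1 (f_pos (by norm_num) n)
    rw [← h_pow, ← h_pow] at h4
    exact h4
  have h3 : L ^ (3 / 10 : ℝ) * (c / 2 * N * L ^ (-(1 / 2) : ℝ)) ≤ ((B0 N).card : ℝ) +
      L ^ (3 / 10 : ℝ) * (L ^ (-(1 / 10) : ℝ) * (C1 * N * L ^ (-(81 / 200) : ℝ))) +
      L ^ (3 / 10 : ℝ) * (L ^ (3 / 40 : ℝ) * (C2 * N * L ^ (-(579 / 1000) : ℝ))) := by
    have t0 : L ^ (3 / 10 : ℝ) * (c / 2 * N * L ^ (-(1 / 2) : ℝ)) ≤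
        L ^ (3 / 10 : ℝ) * ∑ n ∈ Icc 1 N, h n := mul_le_mul_of_nonneg_left s0 (by positivity)
    have t1 : L ^ (3 / 10 : ℝ) * (L ^ (-(1 / 10) : ℝ) * ∑ n ∈ Icc 1 N, f z1 n) ≤
        L ^ (3 / 10 : ℝ) * (L ^ (-(1 / 10) : ℝ) * (C1 * N * L ^ (-(81 / 200) : ℝ))) :=
      mul_le_mul_of_nonneg_left (mul_le_mul_of_nonneg_left s1 (by positivity)) (by positivity)
    have t2 : L ^ (3 / 10 : ℝ) * (L ^ (3 / 40 : ℝ) * ∑ n ∈ Icc 1 N, f z2 n) ≤
        L ^ (3 / 10 : ℝ) * (L ^ (3 / 40 : ℝ) * (C2 * N * L ^ (-(579 / 1000) : ℝ))) :=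
      mul_le_mul_of_nonneg_left (mul_le_mul_of_nonneg_left s2 (by positivity)) (by positivity)
    linarith
  have e0 : L ^ (3 / 10 : ℝ) * L ^ (-(1 / 2) : ℝ) = L ^ (-(1 / 5) : ℝ) := by
    rw [← Real.rpow_add hL0]; norm_num
  have e1 : L ^ (3 / 10 : ℝ) * (L ^ (-(1 / 10) : ℝ) * L ^ (-(81 / 200) : ℝ)) ≤
      L ^ (-(1 / 5) : ℝ) * L ^ (-(1 / 250) : ℝ) := by
    rw [← Real.rpow_add hL0, ← Real.rpow_add hL0, ← Real.rpow_add hL0]
    exact Real.rpow_le_rpow_of_exponent_le hL1 (by norm_num)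
  have e2 : L ^ (3 / 10 : ℝ) * (L ^ (3 / 40 : ℝ) * L ^ (-(579 / 1000) : ℝ)) ≤
      L ^ (-(1 / 5) : ℝ) * L ^ (-(1 / 250) : ℝ) := by
    rw [← Real.rpow_add hL0, ← Real.rpow_add hL0, ← Real.rpow_add hL0]
    exact Real.rpow_le_rpow_of_exponent_le hL1 (by norm_num)
  have f1 := mul_le_mul_of_nonneg_left e1 (by positivity : (0 : ℝ) ≤ C1 * N)
  have f2 := mul_le_mul_of_nonneg_left e2 (by positivity : (0 : ℝ) ≤ C2 * N)
  have f3 := mul_le_mul_of_nonneg_left hN1.le (by positivity : (0 : ℝ) ≤ N * L ^ (-(1 / 5) : ℝ))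
  have g0 : L ^ (3 / 10 : ℝ) * (c / 2 * N * L ^ (-(1 / 2) : ℝ)) = c / 2 * N * L ^ (-(1 / 5) : ℝ) := by
    rw [← e0]; ring
  nlinarith

/-- **Main theorem.** With `α = 1/5` and `β = 13/50`, so `α + β = 0.46 < 1/2`, there is a family
`B_N ⊆ {1, …, N}` of density `(log N) ^ (-α)` with `E(B_N, N) ≪ N |B_N| (log N) ^ β`. -/
theorem result : ∃ α β : ℝ, 0 ≤ α ∧ 0 ≤ β ∧ α + β < 1 / 2 ∧ ∃ B : ℕ → Finset ℕ,
    (∀ N, B N ⊆ Icc 1 N) ∧ ∃ c C : ℝ, 0 < c ∧ 0 < C ∧ ∃ N₀ : ℕ, ∀ N : ℕ, N₀ ≤ N →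
      c * N * Real.log N ^ (-α) ≤ ((B N).card : ℝ) ∧
      ((B N).card : ℝ) ≤ C * N * Real.log N ^ (-α) ∧
      (energy (B N) N : ℝ) ≤ C * N * ((B N).card : ℝ) * Real.log N ^ β := by
  obtain ⟨c, hc, hcard⟩ := card_B0
  obtain ⟨C, hC, hen⟩ := energy_bound'
  obtain ⟨N₁, hN₁⟩ := Filter.eventually_atTop.1 hcard
  have hex : ∀ N : ℕ, ∃ S : Finset ℕ, S ⊆ B0 N ∧
      (N₁ ≤ N → S.card = ⌈c * N * Real.log N ^ (-(1 / 5) : ℝ)⌉₊) := by
    intro N
    by_cases hN : N₁ ≤ N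
    · have h1 : ⌈c * N * Real.log N ^ (-(1 / 5) : ℝ)⌉₊ ≤ (B0 N).card := Nat.ceil_le.2 (hN₁ N hN)
      obtain ⟨S, hS1, hS2⟩ := exists_subset_card_eq h1
      exact ⟨S, hS1, fun _ => hS2⟩
    · exact ⟨∅, empty_subset _, fun h => absurd h hN⟩
  choose B hB1 hB2 using hex
  have hsub : ∀ N, B N ⊆ Icc 1 N := fun N => (hB1 N).trans (filter_subset _ _)
  refine ⟨1 / 5, 13 / 50, by norm_num, by norm_num, by norm_num, B, hsub, c,
    max (c + 1) (C / c), hc, by positivity, max N₁ 3, ?_⟩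
  intro N hN
  have hN1 : N₁ ≤ N := le_trans (le_max_left _ _) hN
  have hN3 : 3 ≤ N := le_trans (le_max_right _ _) hN
  have hN0 : (0 : ℝ) < N := by exact_mod_cast (by omega : 0 < N)
  set L := Real.log N with hL
  have hL1 : 1 ≤ L := by
    rw [hL, Real.le_log_iff_exp_le hN0]
    have : (3 : ℝ) ≤ N := by exact_mod_cast hN3
    linarith [Real.exp_one_lt_d9]
  have hL0 : 0 < L := by linarith
  have hlow : c * N * L ^ (-(1 / 5) : ℝ) ≤ ((B N).card : ℝ) := by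
    rw [hB2 N hN1]
    exact Nat.le_ceil _
  refine ⟨hlow, ?_, ?_⟩
  · have h1 : ((B N).card : ℝ) ≤ c * N * L ^ (-(1 / 5) : ℝ) + 1 := by
      rw [hB2 N hN1]
      exact (Nat.ceil_lt_add_one (by positivity)).le
    have h2 : 1 ≤ (N : ℝ) * L ^ (-(1 / 5) : ℝ) := by
      have h3 : L ^ (1 / 5 : ℝ) ≤ N := by
        calc L ^ (1 / 5 : ℝ) ≤ L ^ (1 : ℝ) := Real.rpow_le_rpow_of_exponent_le hL1 (by norm_num)
          _ = L := Real.rpow_one L
          _ ≤ N := (Real.log_le_sub_one_of_pos hN0).trans (by linarith)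
      rw [Real.rpow_neg hL0.le, ← div_eq_mul_inv, one_le_div (by positivity)]
      exact h3
    have h3 : c + 1 ≤ max (c + 1) (C / c) := le_max_left _ _
    calc ((B N).card : ℝ) ≤ c * N * L ^ (-(1 / 5) : ℝ) + 1 := h1
      _ ≤ c * N * L ^ (-(1 / 5) : ℝ) + N * L ^ (-(1 / 5) : ℝ) := by linarith
      _ = (c + 1) * (N * L ^ (-(1 / 5) : ℝ)) := by ring
      _ ≤ max (c + 1) (C / c) * (N * L ^ (-(1 / 5) : ℝ)) := mul_le_mul_of_nonneg_right h3 (by positivity)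
      _ = _ := by ring
  · have h1 := hen N hN3 (B N) (hsub N) (fun a ha => (mem_filter.1 (hB1 N ha)).2)
    have h2 : C / c ≤ max (c + 1) (C / c) := le_max_right _ _
    have h3 : L ^ (3 / 50 : ℝ) = L ^ (-(1 / 5) : ℝ) * L ^ (13 / 50 : ℝ) := by
      rw [← Real.rpow_add hL0]; norm_num
    calc (energy (B N) N : ℝ) ≤ C * (N : ℝ) ^ 2 * L ^ (3 / 50 : ℝ) := h1
      _ = C / c * N * (c * N * L ^ (-(1 / 5) : ℝ)) * L ^ (13 / 50 : ℝ) := by
          rw [h3]; field_simp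
      _ ≤ C / c * N * ((B N).card : ℝ) * L ^ (13 / 50 : ℝ) := by
          refine mul_le_mul_of_nonneg_right ?_ (by positivity)
          exact mul_le_mul_of_nonneg_left hlow (by positivity)
      _ ≤ max (c + 1) (C / c) * N * ((B N).card : ℝ) * L ^ (13 / 50 : ℝ) := by
          refine mul_le_mul_of_nonneg_right ?_ (by positivity)
          refine mul_le_mul_of_nonneg_right ?_ (by positivity)
          exact mul_le_mul_of_nonneg_right h2 hN0.le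

end Pool.Agent.Results.MP_2883d2_nt.SmallEnergy
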